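import Pool.Agent.L7h71.UN.Stm

/-!
# Project UN of helper71: part NAM, the version with finitely many named points
-/

set_option autoImplicit false
set_option linter.unusedVariables false

namespace Pool.Agent.L7h77.UN

open Set Filter Function
open Pool.Agent.L7h71.UN

section

variable {r : ℕ} {K : Type} (F : Finset ℕ)

/-- the points which are not named -/
abbrev Vf : Type := {v : ℕ // v ∉ F}

/-- value of an optional named point -/
def val (F : Finset ℕ) (o : Option F) (v : ℕ) : ℕ :=
  match o with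
  | none => v
  | some a => a

/-- the structure on the points which are not named -/
def Mf (M : St r K ℕ) : St r ((Fin r → Option F) → K) (Vf F) :=
  fun x t => M fun i => val F (t i) (x i)

open Classical in
/-- the pattern of named points of a tuple -/
noncomputable def pat (y : ℕ) : Option F := if h : y ∈ F then some ⟨y, h⟩ else none

open Classical in
/-- the not named point, or the default -/
noncomputable def pt (v0 : Vf F) (y : ℕ) : Vf F := if h : y ∈ F then v0 else ⟨y, h⟩

variable {F}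

theorem pat_mem {y : ℕ} (h : y ∈ F) : pat F y = some ⟨y, h⟩ := by
  simp [pat, h]

theorem pat_not {y : ℕ} (h : y ∉ F) : pat F y = none := by
  simp [pat, h]

theorem pt_mem {v0 : Vf F} {y : ℕ} (h : y ∈ F) : pt F v0 y = v0 := by
  simp [pt, h]

theorem pt_not {v0 : Vf F} {y : ℕ} (h : y ∉ F) : pt F v0 y = ⟨y, h⟩ := by
  simp [pt, h]

theorem val_pat (v0 : Vf F) (y : ℕ) : val F (pat F y) (pt F v0 y) = y := by
  by_cases h : y ∈ F
  · rw [pat_mem h, val]
  · rw [pat_not h, pt_not h, val]

theorem Mf_pat (M : St r K ℕ) (v0 : Vf F) (y : Fin r → ℕ) :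
    Mf F M (fun i => pt F v0 (y i)) (fun i => pat F (y i)) = M y := by
  unfold Mf
  congr 1
  funext i
  exact val_pat v0 (y i)

/-- the extension of a map of the not named points by the identity -/
noncomputable def ex (f : Vf F → Vf F) (v0 : Vf F) (n : ℕ) : ℕ := val F (pat F n) (f (pt F v0 n))

theorem ex_mem {f : Vf F → Vf F} {v0 : Vf F} {y : ℕ} (h : y ∈ F) : ex f v0 y = y := by
  rw [ex, pat_mem h, val]

theorem ex_not {f : Vf F → Vf F} {v0 : Vf F} {y : ℕ} (h : y ∉ F) : ex f v0 y = f ⟨y, h⟩ := by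
  rw [ex, pat_not h, pt_not h, val]

theorem cellular_of (M : St r K ℕ) (v0 : Vf F) (h : Cellular (Mf F M)) : Cellular M := by
  classical
  obtain ⟨d, m, sz, e, he⟩ := h
  let e2 : ℕ ≃ ({v : ℕ // v ∈ F} ⊕ Fin d) ⊕ (Σ i : Fin m, ℕ × Fin (sz i)) :=
    (Equiv.sumCompl fun v : ℕ => v ∈ F).symm.trans
      ((Equiv.sumCongr (Equiv.refl _) e).trans (Equiv.sumAssoc _ _ _).symm)
  let e3 : ({v : ℕ // v ∈ F} ⊕ Fin d) ≃ Fin (F.card + d) :=
    (Equiv.sumCongr F.equivFin (Equiv.refl _)).trans finSumFinEquiv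
  let e4 : ℕ ≃ Dom (F.card + d) m sz := e2.trans (Equiv.sumCongr e3 (Equiv.refl _))
  refine ⟨F.card + d, m, sz, e4, fun σ x => ?_⟩
  have key : ∀ n : ℕ, e4.symm (act σ (e4 n)) =
      ex (fun v => e.symm (act σ (e v))) v0 n := by
    intro n
    by_cases h : n ∈ F
    · rw [ex_mem h, Equiv.symm_apply_eq]
      have : e4 n = Sum.inl (e3 (Sum.inl ⟨n, h⟩)) := by
        simp [e4, e2, Equiv.sumCompl_symm_apply_of_pos, h]
      rw [this]
      simp [act]
    · rw [ex_not h, Equiv.symm_apply_eq]
      have h1 : ∀ v : Vf F, e4 v.1 = Sum.map (fun j => e3 (Sum.inr j)) id (e v) := by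
        intro v
        have : (Equiv.sumCompl fun v : ℕ => v ∈ F).symm v.1 = Sum.inr v := by
          rw [Equiv.sumCompl_symm_apply_of_neg v.2]
        simp only [e4, e2, Equiv.trans_apply, this, Equiv.sumCongr_apply, Sum.map_inr]
        rcases e v with a | a <;> simp
      have h2 := h1 ⟨n, h⟩
      have h3 := h1 (e.symm (act σ (e ⟨n, h⟩)))
      rw [h3]
      simp only at h2
      rw [h2, Equiv.apply_symm_apply]
      rcases e ⟨n, h⟩ with a | a <;> simp [act]
  have h5 := congrFun (he σ fun i => pt F v0 (x i)) fun i => pat F (x i)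
  rw [Mf_pat] at h5
  rw [← h5]
  unfold Mf
  congr 1
  funext i
  rw [key]
  rfl

theorem Mf_congr (M : St r K ℕ) (t : Fin r → Option F) (x x' : Fin r → Vf F)
    (h : ∀ i, t i = none → x i = x' i) : Mf F M x t = Mf F M x' t := by
  unfold Mf
  congr 1
  funext i
  rcases hi : t i with _ | a
  · rw [h i hi]
  · rfl

theorem loc_congr (M : St r K ℕ) (N : St r ((Fin r → Option F) → K) ℕ) (hN : Loc (Mf F M) N)
    (t : Fin r → Option F) (x x' : Fin r → ℕ) (h : ∀ i, t i = none → x i = x' i) :
    N x t = N x' t := by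
  classical
  obtain ⟨e, he, h1⟩ := hN (Finset.univ.image x ∪ Finset.univ.image x')
  rw [← h1 x fun i => Finset.mem_union_left _ (Finset.mem_image_of_mem _ (Finset.mem_univ i)),
    ← h1 x' fun i => Finset.mem_union_right _ (Finset.mem_image_of_mem _ (Finset.mem_univ i))]
  refine Mf_congr M t _ _ fun i hi => ?_
  simp only [comp_apply]
  rw [h i hi]

/-- the structure on `ℕ` given by a structure on the coded not named points -/
noncomputable def Gf (ε : Vf F ≃ ℕ) (v0 : Vf F) (N : St r ((Fin r → Option F) → K) ℕ) : St r K ℕ :=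
  fun y => N (fun i => ε (pt F v0 (y i))) fun i => pat F (y i)

theorem locOver_Gf (M : St r K ℕ) (ε : Vf F ≃ ℕ) (v0 : Vf F) (N : St r ((Fin r → Option F) → K) ℕ)
    (hN : Loc (Mf F M) N) : LocOver F M (Gf ε v0 N) := by
  classical
  intro X
  obtain ⟨e, he, h1⟩ := hN (X.image (fun n => ε (pt F v0 n)))
  refine ⟨ex (fun v => e (ε v)) v0, ?_, fun a ha => ex_mem ha, ?_, ?_⟩
  · intro a ha b hb hab
    by_cases h : a ∈ F <;> by_cases h' : b ∈ F
    · rwa [ex_mem h, ex_mem h'] at hab
    · rw [ex_mem h, ex_not h'] at hab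
      exact absurd (hab ▸ h) (e (ε ⟨b, h'⟩)).2
    · rw [ex_not h, ex_mem h'] at hab
      exact absurd (hab ▸ h') (fun h'' => (e (ε ⟨a, h⟩)).2 h'')
    · rw [ex_not h, ex_not h'] at hab
      have h2 : ε (pt F v0 a) ∈ ((X.image (fun n => ε (pt F v0 n)) : Finset ℕ) : Set ℕ) :=
        Finset.mem_coe.2 (Finset.mem_image_of_mem _ ha)
      have h3 : ε (pt F v0 b) ∈ ((X.image (fun n => ε (pt F v0 n)) : Finset ℕ) : Set ℕ) :=
        Finset.mem_coe.2 (Finset.mem_image_of_mem _ hb)
      rw [pt_not h] at h2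
      rw [pt_not h'] at h3
      have h4 := ε.injective (he h2 h3 (Subtype.ext hab))
      exact congrArg Subtype.val h4
  · intro a ha h
    by_contra h'
    rw [ex_not h'] at h
    exact (e (ε ⟨a, h'⟩)).2 h
  · intro x hx
    have h2 := h1 (fun i => ε (pt F v0 (x i))) fun i => Finset.mem_image_of_mem _ (hx i)
    unfold Gf
    rw [← h2]
    unfold Mf
    congr 1

theorem iso_Gf (M : St r K ℕ) (ε : Vf F ≃ ℕ) (v0 : Vf F)
    (N N' : St r ((Fin r → Option F) → K) ℕ)
    (hN : Loc (Mf F M) N) (hN' : Loc (Mf F M) N') (e : Equiv.Perm ℕ) (he : ∀ a ∈ F, e a = a)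
    (h : ∀ x : Fin r → ℕ, Gf ε v0 N' (e ∘ x) = Gf ε v0 N x) : Iso N N' := by
  classical
  have heF : ∀ a, e a ∈ F ↔ a ∈ F := by
    intro a
    constructor
    · intro ha
      have h1 := he (e a) ha
      have h2 := e.injective h1
      rwa [h2] at ha
    · intro ha
      rwa [he a ha]
  let eV : Vf F ≃ Vf F := e.subtypeEquiv fun a => by rw [heF]
  have heV : ∀ (a : ℕ) (ha : a ∉ F) (hea : e a ∉ F), eV ⟨a, ha⟩ = ⟨e a, hea⟩ := fun a ha hea => rfl
  refine ⟨(ε.symm.trans eV).trans ε, fun x => ?_⟩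
  funext t
  let y : Fin r → ℕ := fun i => val F (t i) (ε.symm (x i))
  have hy1 : ∀ i, pat F (y i) = t i := by
    intro i
    rcases hi : t i with _ | a
    · have : y i = (ε.symm (x i)).1 := by simp only [y, hi, val]
      rw [this, pat_not (ε.symm (x i)).2]
    · have : y i = a.1 := by simp only [y, hi, val]
      rw [this, pat_mem a.2]
  have hy2 : ∀ i, t i = none → pt F v0 (y i) = ε.symm (x i) := by
    intro i hi
    have : y i = (ε.symm (x i)).1 := by simp only [y, hi, val]
    rw [this, pt_not (ε.symm (x i)).2]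
  have hy3 : ∀ i, pat F (e (y i)) = t i := by
    intro i
    rcases hi : t i with _ | a
    · have : y i = (ε.symm (x i)).1 := by simp only [y, hi, val]
      rw [this, pat_not]
      rw [heF]
      exact (ε.symm (x i)).2
    · have : y i = a.1 := by simp only [y, hi, val]
      rw [this, he _ a.2, pat_mem a.2]
  have hy4 : ∀ i, t i = none → pt F v0 (e (y i)) = eV (ε.symm (x i)) := by
    intro i hi
    have : y i = (ε.symm (x i)).1 := by simp only [y, hi, val]
    have h5 : e (ε.symm (x i)).1 ∉ F := by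
      rw [heF]
      exact (ε.symm (x i)).2
    rw [this, pt_not h5]
    rfl
  have h1 : Gf ε v0 N y = N x t := by
    unfold Gf
    have : (fun i => pat F (y i)) = t := funext hy1
    rw [this]
    refine loc_congr M N hN t _ _ fun i hi => ?_
    rw [hy2 i hi, Equiv.apply_symm_apply]
  have h2 : Gf ε v0 N' (e ∘ y) = N' (((ε.symm.trans eV).trans ε) ∘ x) t := by
    unfold Gf
    have : (fun i => pat F ((e ∘ y) i)) = t := funext hy3
    rw [this]
    refine loc_congr M N' hN' t _ _ fun i hi => ?_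
    simp only [comp_apply]
    rw [hy4 i hi]
    rfl
  rw [← h1, ← h2, h]

end

/-- NAM -/
theorem s_NAM (h1 : S_MAIN) (h2 : S_PERF0) : S_NAM := by
  classical
  intro r K M F
  have hinf : Infinite (Vf F) := F.finite_toSet.infinite_compl.to_subtype
  obtain ⟨v0⟩ : Nonempty (Vf F) := inferInstance
  obtain ⟨ε⟩ : Nonempty (Vf F ≃ ℕ) := by
    have := Classical.choice (nonempty_denumerable (Vf F))
    exact ⟨Denumerable.eqv (Vf F)⟩
  by_cases hM : Many (Mf F M)
  · right
    obtain ⟨g', hg1, hg2, hg3⟩ := hM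
    obtain ⟨h, hc, hi⟩ := h2 r F.card K (fun c => Gf ε v0 (g' c))
      (fun _ i => (F.equivFin.symm i : ℕ))
      (fun x => by
        have := (hg1 fun i => ε (pt F v0 (x i))).comp
          (fun w : (Fin r → Option F) → K => w fun i => pat F (x i))
        exact this)
      (fun i => IsLocallyConstant.const _)
      (fun c d e he hx => hg3 c d (iso_Gf M ε v0 (g' c) (g' d) (hg2 c) (hg2 d) e
        (fun a ha => by
          have := he (F.equivFin ⟨a, ha⟩)
          simpa using this) hx))
    refine ⟨fun c => Gf ε v0 (g' (h c)), fun x => ?_, fun c => locOver_Gf M ε v0 _ (hg2 _),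
      fun c d hcd => hi c d hcd⟩
    have h3 := (hg1 fun i => ε (pt F v0 (x i))).comp
      (fun w : (Fin r → Option F) → K => w fun i => pat F (x i))
    exact h3.comp_continuous hc
  · left
    exact cellular_of M v0 (h1 r _ (Vf F) (Mf F M) hM)

end Pool.Agent.L7h77.UN
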